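import Mathlib

set_option autoImplicit false

namespace Pool.Agent.H.MP_7de4e5_co

open Set MeasureTheory
open scoped ENNReal Classical

abbrev P := EuclideanSpace ℝ (Fin 2)

def TT (E : Finset (P × P)) : Set P := ⋃ e ∈ E, segment ℝ e.1 e.2

noncomputable def len (E : Finset (P × P)) : ℝ := ∑ e ∈ E, dist e.1 e.2

lemma len_insert_le (E : Finset (P × P)) (e : P × P) :
    len (insert e E) ≤ len E + dist e.1 e.2 := by
  unfold len
  by_cases h : e ∈ E
  · rw [Finset.insert_eq_of_mem h]; have := dist_nonneg (x := e.1) (y := e.2); linarith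
  · rw [Finset.sum_insert h]; linarith

lemma TT_insert (E : Finset (P × P)) (e : P × P) :
    TT (insert e E) = segment ℝ e.1 e.2 ∪ TT E := by
  unfold TT; simp

lemma pre_insert {E : Finset (P × P)} (h : IsPreconnected (TT E)) {q : P} (hq : q ∈ TT E) (p : P) :
    IsPreconnected (TT (insert (q, p) E)) := by
  rw [TT_insert]
  exact IsPreconnected.union q (left_mem_segment ℝ q p) hq
    (convex_segment q p).isPreconnected h

structure Good (U : ℕ → Set P) (w : ℕ → ℝ) (c : ℝ) (F : Finset ℕ) (E : Finset (P × P)) :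
    Prop where
  pre : IsPreconnected (TT E)
  meet : ∀ n ∈ F, (U n ∩ TT E).Nonempty
  le : len E ≤ ∑ n ∈ F, w n + c

def D (U : ℕ → Set P) (F : Finset ℕ) : ℕ → Set ℕ
  | 0 => ↑F
  | d + 1 => D U F d ∪ {n | ∃ n' ∈ D U F d, (U n ∩ U n').Nonempty}

lemma step {U : ℕ → Set P} {w : ℕ → ℝ} {c r : ℝ} {F : Finset ℕ} {E : Finset (P × P)}
    (hw : ∀ n, ∀ p ∈ U n, ∀ q ∈ U n, dist p q ≤ w n) (hr : ∀ n, w n ≤ r)
    (hG : Good U w c F E) :
    ∀ d, ∀ n ∈ D U F d, ∀ p ∈ U n, ∃ (F' : Finset ℕ) (E' : Finset (P × P)), F ⊆ F' ∧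
      (↑F' : Set ℕ) ⊆ D U F d ∧ TT E ⊆ TT E' ∧ p ∈ TT E' ∧ Good U w (c + r) F' E' := by
  intro d
  induction d with
  | zero =>
    intro n hn p hp
    have hn' : n ∈ F := hn
    obtain ⟨q, hqU, hqT⟩ := hG.meet n hn'
    refine ⟨F, insert (q, p) E, subset_rfl, subset_rfl, ?_, ?_, pre_insert hG.pre hqT p, ?_, ?_⟩
    · rw [TT_insert]; exact subset_union_right
    · rw [TT_insert]; exact Or.inl (right_mem_segment ℝ q p)
    · intro m hm
      obtain ⟨z, hz1, hz2⟩ := hG.meet m hm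
      exact ⟨z, hz1, by rw [TT_insert]; exact Or.inr hz2⟩
    · have h1 := len_insert_le E (q, p)
      have h2 := hw n q hqU p hp
      have h3 := hr n
      have h4 := hG.le
      simp only at h1
      linarith
  | succ d ih =>
    intro n hn p hp
    by_cases hnd : n ∈ D U F d
    · obtain ⟨F', E', h1, h2, h3, h4, h5⟩ := ih n hnd p hp
      exact ⟨F', E', h1, h2.trans subset_union_left, h3, h4, h5⟩
    · have hn2 : ∃ n' ∈ D U F d, (U n ∩ U n').Nonempty := by
        rcases hn with h | h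
        · exact absurd h hnd
        · exact h
      obtain ⟨n', hn', q, hq1, hq2⟩ := hn2
      obtain ⟨F', E', h1, h2, h3, h4, h5⟩ := ih n' hn' q hq2
      have hnF : n ∉ F' := fun h => hnd (h2 h)
      refine ⟨insert n F', insert (q, p) E', h1.trans (Finset.subset_insert _ _), ?_, ?_, ?_,
        pre_insert h5.pre h4 p, ?_, ?_⟩
      · intro m hm
        rw [Finset.coe_insert] at hm
        rcases hm with rfl | hm
        · exact hn
        · exact Or.inl (h2 hm)
      · rw [TT_insert]; exact h3.trans subset_union_right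
      · rw [TT_insert]; exact Or.inl (right_mem_segment ℝ q p)
      · intro m hm
        rcases Finset.mem_insert.1 hm with rfl | hm
        · exact ⟨q, hq1, by rw [TT_insert]; exact Or.inr h4⟩
        · obtain ⟨z, hz1, hz2⟩ := h5.meet m hm
          exact ⟨z, hz1, by rw [TT_insert]; exact Or.inr hz2⟩
      · have h6 := len_insert_le E' (q, p)
        have h7 := hw n q hq1 p hp
        have h8 := h5.le
        rw [Finset.sum_insert hnF]
        simp only at h6
        linarith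

lemma cover {U : ℕ → Set P} {S : Set P} (hS : IsPreconnected S) (hU : ∀ n, IsOpen (U n))
    (hc : S ⊆ ⋃ n, U n) {F : Finset ℕ} {n0 : ℕ} (h0 : n0 ∈ F) (h1 : (U n0 ∩ S).Nonempty)
    {p : P} (hp : p ∈ S) : ∃ d, ∃ n ∈ D U F d, p ∈ U n := by
  set A : Set ℕ := {n | ∃ d, n ∈ D U F d} with hA
  have key : S ⊆ ⋃ n ∈ A, U n := by
    refine IsPreconnected.subset_left_of_subset_union (v := ⋃ n ∈ Aᶜ, U n)
      (isOpen_biUnion fun n _ => hU n) (isOpen_biUnion fun n _ => hU n) ?_ ?_ ?_ hS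
    · rw [Set.disjoint_left]
      intro z hz1 hz2
      simp only [mem_iUnion] at hz1 hz2
      obtain ⟨n, ⟨d, hd⟩, hn⟩ := hz1
      obtain ⟨m, hm, hm2⟩ := hz2
      exact hm ⟨d + 1, Or.inr ⟨n, hd, z, hm2, hn⟩⟩
    · intro z hz
      obtain ⟨n, hn⟩ := mem_iUnion.1 (hc hz)
      by_cases h : n ∈ A
      · exact Or.inl (mem_biUnion h hn)
      · exact Or.inr (mem_biUnion (show n ∈ Aᶜ from h) hn)
    · obtain ⟨z, hz1, hz2⟩ := h1
      exact ⟨z, hz2, mem_biUnion (show n0 ∈ A from ⟨0, h0⟩) hz1⟩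
  have := key hp
  simp only [mem_iUnion] at this
  obtain ⟨n, ⟨d, hd⟩, hn⟩ := this
  exact ⟨d, n, hd, hn⟩

lemma approx {U : ℕ → Set P} {w : ℕ → ℝ} {r : ℝ} {S : Set P} (hS : IsConnected S)
    (hU : ∀ n, IsOpen (U n)) (hc : S ⊆ ⋃ n, U n)
    (hw : ∀ n, ∀ p ∈ U n, ∀ q ∈ U n, dist p q ≤ w n) (hr : ∀ n, w n ≤ r) (A : Finset P)
    (hA : ∀ p ∈ A, p ∈ S) :
    ∃ (F : Finset ℕ) (E : Finset (P × P)), (∃ n0 ∈ F, (U n0 ∩ S).Nonempty) ∧
      (∀ p ∈ A, p ∈ TT E) ∧ Good U w (A.card * r) F E := by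
  induction A using Finset.induction_on with
  | empty =>
    obtain ⟨p0, hp0⟩ := hS.nonempty
    obtain ⟨n0, hn0⟩ := mem_iUnion.1 (hc hp0)
    refine ⟨{n0}, {(p0, p0)}, ⟨n0, by simp, p0, hn0, hp0⟩, by simp, ?_, ?_, ?_⟩
    · simp [TT, isPreconnected_singleton]
    · intro n hn
      rw [Finset.mem_singleton.1 hn]
      exact ⟨p0, hn0, by simp [TT]⟩
    · have := hw n0 p0 hn0 p0 hn0
      simpa [len] using this
  | insert p A hpA ih =>
    obtain ⟨F, E, ⟨n0, h0, h1⟩, h2, h3⟩ := ih (fun q hq => hA q (Finset.mem_insert_of_mem hq))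
    obtain ⟨d, n, hn, hp⟩ := cover hS.isPreconnected hU hc h0 h1 (hA p (Finset.mem_insert_self _ _))
    obtain ⟨F', E', g1, _, g3, g4, g5⟩ := step hw hr h3 d n hn p hp
    refine ⟨F', E', ⟨n0, g1 h0, h1⟩, ?_, ?_⟩
    · intro q hq
      rcases Finset.mem_insert.1 hq with rfl | hq
      · exact g4
      · exact g3 (h2 q hq)
    · rw [Finset.card_insert_of_notMem hpA]
      push_cast
      rw [add_mul, one_mul]
      exact g5

theorem reduce {S : Set P} (hS : IsConnected S) {L η : ℝ} (hL : 0 ≤ L) (hη : 0 < η)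
    (hm : Measure.hausdorffMeasure 1 S ≤ ENNReal.ofReal L) (A : Finset P)
    (hA : ∀ p ∈ A, p ∈ S) :
    ∃ E : Finset (P × P), IsPreconnected (TT E) ∧ (∀ p ∈ A, p ∈ TT E) ∧
      len E ≤ L + 3 * η + A.card * (3 * η) := by
  have h1 : Measure.hausdorffMeasure 1 S < ENNReal.ofReal (L + η) :=
    lt_of_le_of_lt hm ((ENNReal.ofReal_lt_ofReal_iff (by linarith)).2 (by linarith))
  rw [Measure.hausdorffMeasure_apply] at h1
  have h2 := lt_of_le_of_lt (le_iSup₂_of_le (f := fun (r : ℝ≥0∞) (_ : 0 < r) =>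
    ⨅ (t : ℕ → Set P) (_ : S ⊆ ⋃ n, t n) (_ : ∀ n, Metric.ediam (t n) ≤ r),
          ∑' n, ⨆ _ : (t n).Nonempty, Metric.ediam (t n) ^ (1 : ℝ)) (ENNReal.ofReal η)
          (ENNReal.ofReal_pos.2 hη) le_rfl) h1
  obtain ⟨t, h3⟩ := iInf_lt_iff.1 h2
  obtain ⟨ht1, h4⟩ := iInf_lt_iff.1 h3
  obtain ⟨ht2, h5⟩ := iInf_lt_iff.1 h4
  have hfin : ∀ n, Metric.ediam (t n) ≠ ⊤ := fun n =>
    ne_top_of_le_ne_top ENNReal.ofReal_ne_top (ht2 n)
  set ε : ℕ → ℝ := fun n => η / 2 / 2 ^ n with hε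
  have hεp : ∀ n, 0 < ε n := fun n => by simp only [hε]; positivity
  have hεl : ∀ n, ε n ≤ η := fun n => by
    simp only [hε]
    rw [div_le_iff₀ (by positivity)]
    have : (1 : ℝ) ≤ 2 ^ n := one_le_pow₀ (by norm_num)
    nlinarith
  obtain ⟨F, E, -, g2, g3⟩ := approx (U := fun n => Metric.thickening (ε n) (t n))
    (w := fun n => (Metric.ediam (t n)).toReal + 2 * ε n) (r := 3 * η) hS
    (fun n => Metric.isOpen_thickening)
    (ht1.trans (iUnion_mono fun n => Metric.self_subset_thickening (hεp n) _))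
    (by
      intro n p hp q hq
      obtain ⟨z, hz, hz2⟩ := Metric.mem_thickening_iff.1 hp
      obtain ⟨y, hy, hy2⟩ := Metric.mem_thickening_iff.1 hq
      have h6 : dist z y ≤ (Metric.ediam (t n)).toReal := by
        rw [dist_edist]
        exact ENNReal.toReal_mono (hfin n) (Metric.edist_le_ediam_of_mem hz hy)
      have h7 := dist_triangle4 p z y q
      rw [dist_comm y q] at h7
      linarith)
    (by
      intro n
      have h6 : (Metric.ediam (t n)).toReal ≤ η :=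
        ENNReal.toReal_le_of_le_ofReal hη.le (ht2 n)
      have := hεl n
      linarith) A hA
  refine ⟨E, g3.pre, g2, ?_⟩
  have h6 := g3.le
  rw [Finset.sum_add_distrib, ← Finset.mul_sum] at h6
  have h7 : ∑ n ∈ F, ε n ≤ η := by
    have := (summable_geometric_two' η).sum_le_tsum F (fun n _ => (hεp n).le)
    rwa [tsum_geometric_two'] at this
  have h8 : ∑ n ∈ F, (Metric.ediam (t n)).toReal ≤ L + η := by
    rw [← ENNReal.toReal_sum (fun n _ => hfin n)]
    refine ENNReal.toReal_le_of_le_ofReal (by linarith) ?_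
    refine le_trans ?_ h5.le
    refine le_trans (Finset.sum_le_sum fun n _ => ?_) (ENNReal.sum_le_tsum F)
    rcases (t n).eq_empty_or_nonempty with h | h
    · simp [h]
    · simp [h]
  linarith

end Pool.Agent.H.MP_7de4e5_co
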