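import Mathlib
import Pool.Agent.H.MP_7de4e5_co.A

set_option autoImplicit false

namespace Pool.Agent.H.MP_7de4e5_co

open Set MeasureTheory
open scoped ENNReal Classical

noncomputable def gam (e : P × P) (s : ℝ) : P := AffineMap.lineMap e.1 e.2 s

lemma gam_cont (e : P × P) : Continuous (gam e) := by
  unfold gam; exact AffineMap.lineMap_continuous

lemma gam_apply (e : P × P) (s : ℝ) (c : Fin 2) :
    gam e s c = e.1 c + s * (e.2 c - e.1 c) := by
  simp [gam, AffineMap.lineMap_apply]; ring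

lemma seg_eq (e : P × P) : segment ℝ e.1 e.2 = gam e '' Icc 0 1 := by
  rw [segment_eq_image_lineMap]; rfl

noncomputable def nu (e : P × P) : Measure P := (volume.restrict (Icc (0 : ℝ) 1)).map (gam e)

instance (e : P × P) : IsFiniteMeasure (nu e) := by unfold nu; infer_instance

lemma nu_apply (e : P × P) {U : Set P} (hU : MeasurableSet U) :
    nu e U = volume (gam e ⁻¹' U ∩ Icc 0 1) := by
  unfold nu
  rw [Measure.map_apply (gam_cont e).measurable hU,
    Measure.restrict_apply ((gam_cont e).measurable hU)]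

noncomputable def wt (E : Finset (P × P)) (g : P × P → ℝ) (U : Set P) : ℝ :=
  ∑ e ∈ E, g e * (nu e).real U

noncomputable def lam (E : Finset (P × P)) : Set P → ℝ := wt E fun e => dist e.1 e.2

noncomputable def pr (E : Finset (P × P)) (c : Fin 2) : Set P → ℝ :=
  wt E fun e => |e.2 c - e.1 c|

lemma wt_split (E : Finset (P × P)) (g : P × P → ℝ) (U : Set P) {V : Set P}
    (hV : MeasurableSet V) : wt E g U = wt E g (U ∩ V) + wt E g (U \ V) := by
  unfold wt
  rw [← Finset.sum_add_distrib]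
  refine Finset.sum_congr rfl fun e _ => ?_
  rw [← mul_add, measureReal_inter_add_sdiff hV]

lemma wt_mono (E : Finset (P × P)) {g : P × P → ℝ} (hg : ∀ e, 0 ≤ g e) {U V : Set P}
    (h : U ⊆ V) : wt E g U ≤ wt E g V :=
  Finset.sum_le_sum fun e _ => mul_le_mul_of_nonneg_left (measureReal_mono h) (hg e)

lemma wt_nonneg (E : Finset (P × P)) {g : P × P → ℝ} (hg : ∀ e, 0 ≤ g e) (U : Set P) :
    0 ≤ wt E g U :=
  Finset.sum_nonneg fun e _ => mul_nonneg (hg e) measureReal_nonneg

lemma lam_split (E : Finset (P × P)) (U : Set P) {V : Set P}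
    (hV : MeasurableSet V) : lam E U = lam E (U ∩ V) + lam E (U \ V) := wt_split E _ U hV

lemma pr_split (E : Finset (P × P)) (c : Fin 2) (U : Set P) {V : Set P}
    (hV : MeasurableSet V) : pr E c U = pr E c (U ∩ V) + pr E c (U \ V) := wt_split E _ U hV

lemma lam_mono (E : Finset (P × P)) {U V : Set P} (h : U ⊆ V) : lam E U ≤ lam E V :=
  wt_mono E (fun _ => dist_nonneg) h

lemma pr_mono (E : Finset (P × P)) (c : Fin 2) {U V : Set P} (h : U ⊆ V) :
    pr E c U ≤ pr E c V := wt_mono E (fun _ => abs_nonneg _) h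

lemma pr_nonneg (E : Finset (P × P)) (c : Fin 2) (U : Set P) : 0 ≤ pr E c U :=
  wt_nonneg E (fun _ => abs_nonneg _) U

lemma lam_le_len (E : Finset (P × P)) (U : Set P) : lam E U ≤ len E := by
  refine (lam_mono E (subset_univ U)).trans (le_of_eq ?_)
  unfold lam wt len
  refine Finset.sum_congr rfl fun e _ => ?_
  rw [Measure.real, nu_apply e MeasurableSet.univ]
  simp

lemma comb (E : Finset (P × P)) {α β : ℝ} (ha : 0 ≤ α) (hb : 0 ≤ β) (h : α ^ 2 + β ^ 2 ≤ 1)
    (U : Set P) : α * pr E 1 U + β * pr E 0 U ≤ lam E U := by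
  unfold pr lam wt
  rw [Finset.mul_sum, Finset.mul_sum, ← Finset.sum_add_distrib]
  refine Finset.sum_le_sum fun e _ => ?_
  rw [← mul_assoc, ← mul_assoc, ← add_mul]
  refine mul_le_mul_of_nonneg_right ?_ measureReal_nonneg
  beta_reduce
  rw [EuclideanSpace.dist_eq, Fin.sum_univ_two, Real.dist_eq, Real.dist_eq, abs_sub_comm (e.1 0),
    abs_sub_comm (e.1 1)]
  set x := |e.2 1 - e.1 1|
  set y := |e.2 0 - e.1 0|
  have hx : 0 ≤ x := abs_nonneg _
  have hy : 0 ≤ y := abs_nonneg _
  apply Real.le_sqrt_of_sq_le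
  nlinarith [sq_nonneg (α * y - β * x), mul_nonneg (sub_nonneg.2 h) (add_nonneg (sq_nonneg x) (sq_nonneg y))]

lemma mem_TT {E : Finset (P × P)} {p : P} :
    p ∈ TT E ↔ ∃ e ∈ E, ∃ s ∈ Icc (0 : ℝ) 1, gam e s = p := by
  unfold TT
  simp only [mem_iUnion, seg_eq, mem_image, exists_prop]

lemma lam_sub (E : Finset (P × P)) {U : Set P} (hU : MeasurableSet U)
    (h : (TT E ∩ U).Subsingleton) : lam E U = 0 := by
  unfold lam wt
  refine Finset.sum_eq_zero fun e he => ?_
  by_cases hd : e.1 = e.2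
  · simp [hd]
  · have : (gam e ⁻¹' U ∩ Icc 0 1).Subsingleton := by
      intro s hs s' hs'
      have h1 := h ⟨mem_TT.2 ⟨e, he, s, hs.2, rfl⟩, hs.1⟩ ⟨mem_TT.2 ⟨e, he, s', hs'.2, rfl⟩, hs'.1⟩
      exact AffineMap.lineMap_injective ℝ hd h1
    rw [Measure.real, nu_apply e hU, this.measure_zero]
    simp

theorem count (E : Finset (P × P)) (c : Fin 2) {U : Set P} (hU : MeasurableSet U) (k : ℕ)
    {I : Set ℝ} (hI : MeasurableSet I) {Z : Set ℝ} (hZ : Z.Finite)
    (h : ∀ t ∈ I, t ∉ Z → ∃ B : Finset P, k ≤ B.card ∧ ∀ p ∈ B, p ∈ TT E ∧ p ∈ U ∧ p c = t) :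
    k * volume.real I ≤ pr E c U := by
  set E' := E.filter (fun e => e.2 c - e.1 c ≠ 0) with hE'
  set Z' : Set ℝ := Z ∪ (fun e : P × P => e.1 c) '' ↑E with hZ'
  have hZf : Z'.Finite := hZ.union (E.finite_toSet.image _)
  set A : P × P → Set ℝ := fun e =>
    (fun t => t + (-(e.1 c))) ⁻¹' ((fun t => (e.2 c - e.1 c)⁻¹ * t) ⁻¹' (gam e ⁻¹' U ∩ Icc 0 1))
    with hA
  have hAm : ∀ e, MeasurableSet (A e) := fun e =>
    (measurable_add_const _) ((measurable_const_mul _)
      (((gam_cont e).measurable hU).inter measurableSet_Icc))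
  have hAv : ∀ e ∈ E', volume (A e) = ENNReal.ofReal |e.2 c - e.1 c| * nu e U := by
    intro e he
    have hd := (Finset.mem_filter.1 he).2
    simp only [hA]
    rw [measure_preimage_add_right, Real.volume_preimage_mul_left (inv_ne_zero hd), inv_inv,
      nu_apply e hU]
  have hpt : ∀ t, (I \ Z').indicator (fun _ => (k : ℝ≥0∞)) t ≤
      ∑ e ∈ E', (A e).indicator (fun _ => (1 : ℝ≥0∞)) t := by
    intro t
    by_cases ht : t ∈ I \ Z'
    · rw [indicator_of_mem ht]
      obtain ⟨B, hB1, hB2⟩ := h t ht.1 (fun hz => ht.2 (Or.inl hz))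
      have h1 : ∀ p ∈ B, ∃ e, e ∈ E'.filter (fun e => t ∈ A e) ∧
          p = gam e ((e.2 c - e.1 c)⁻¹ * (t + -(e.1 c))) := by
        intro p hp
        obtain ⟨g1, g2, g3⟩ := hB2 p hp
        obtain ⟨e, he, s, hs, rfl⟩ := mem_TT.1 g1
        rw [gam_apply] at g3
        have hd : e.2 c - e.1 c ≠ 0 := by
          intro h0
          rw [h0] at g3
          exact ht.2 (Or.inr ⟨e, he, by simpa using g3⟩)
        have hs' : (e.2 c - e.1 c)⁻¹ * (t + -(e.1 c)) = s := by
          rw [← g3]; field_simp; ring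
        refine ⟨e, Finset.mem_filter.2 ⟨Finset.mem_filter.2 ⟨he, hd⟩, ?_⟩, by rw [hs']⟩
        simp only [hA, mem_preimage]
        rw [hs']
        exact ⟨g2, hs⟩
      choose! f hf1 hf2 using h1
      have h2 : B.card ≤ (E'.filter (fun e => t ∈ A e)).card := by
        refine Finset.card_le_card_of_injOn f (fun p hp => hf1 p hp) ?_
        intro p hp q hq hpq
        rw [hf2 p hp, hf2 q hq, hpq]
      have h3 : ∑ e ∈ E', (A e).indicator (fun _ => (1 : ℝ≥0∞)) t =
          ((E'.filter (fun e => t ∈ A e)).card : ℝ≥0∞) := by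
        rw [Finset.card_filter]
        push_cast
        refine Finset.sum_congr rfl fun e _ => ?_
        by_cases h4 : t ∈ A e <;> simp [h4]
      rw [h3]
      exact_mod_cast hB1.trans h2
    · rw [indicator_of_notMem ht]; exact bot_le
  have h4 := lintegral_mono (μ := volume) hpt
  rw [lintegral_indicator_const (hI.diff hZf.measurableSet),
    lintegral_finsetSum _ (fun e _ => measurable_const.indicator (hAm e)),
    measure_sdiff_null (hZf.measure_zero _)] at h4
  have h5 : ∑ e ∈ E', ∫⁻ t, (A e).indicator (fun _ => (1 : ℝ≥0∞)) t =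
      ∑ e ∈ E', ENNReal.ofReal |e.2 c - e.1 c| * nu e U := by
    refine Finset.sum_congr rfl fun e he => ?_
    rw [lintegral_indicator_const (hAm e), one_mul, hAv e he]
  rw [h5] at h4
  have h6 : ∀ e ∈ E', ENNReal.ofReal |e.2 c - e.1 c| * nu e U ≠ ⊤ := fun e _ =>
    ENNReal.mul_ne_top ENNReal.ofReal_ne_top (measure_ne_top _ _)
  have h7 := ENNReal.toReal_mono (ENNReal.sum_ne_top.2 h6) h4
  rw [ENNReal.toReal_mul, ENNReal.toReal_sum h6, ENNReal.toReal_natCast] at h7
  refine h7.trans ?_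
  unfold pr wt
  refine le_trans (le_of_eq ?_) (Finset.sum_le_sum_of_subset_of_nonneg
    (Finset.filter_subset (fun e => e.2 c - e.1 c ≠ 0) E)
    (fun e _ _ => mul_nonneg (abs_nonneg _) measureReal_nonneg))
  refine Finset.sum_congr rfl fun e _ => ?_
  rw [ENNReal.toReal_mul, ENNReal.toReal_ofReal (abs_nonneg _)]
  rfl

lemma count1 (E : Finset (P × P)) (c : Fin 2) {U : Set P} (hU : MeasurableSet U) {a b : ℝ}
    (hab : a ≤ b) (h : ∀ t ∈ Ioo a b, ∃ p ∈ TT E, p ∈ U ∧ p c = t) : b - a ≤ pr E c U := by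
  have := count E c hU 1 (measurableSet_Ioo (a := a) (b := b)) finite_empty (by
    intro t ht _
    obtain ⟨p, hp⟩ := h t ht
    exact ⟨{p}, by simp, by simpa using hp⟩)
  rw [Real.volume_real_Ioo_of_le hab] at this
  simpa using this

lemma count2 (E : Finset (P × P)) (c : Fin 2) {U : Set P} (hU : MeasurableSet U) {a b : ℝ}
    (hab : a ≤ b) {Z : Set ℝ} (hZ : Z.Finite)
    (h : ∀ t ∈ Ioo a b, t ∉ Z → (TT E ∩ U ∩ {p | p c = t}).Nontrivial) :
    2 * (b - a) ≤ pr E c U := by
  have := count E c hU 2 (measurableSet_Ioo (a := a) (b := b)) hZ (by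
    intro t ht hz
    obtain ⟨p, hp, q, hq, hpq⟩ := h t ht hz
    refine ⟨{p, q}, by rw [Finset.card_pair hpq], ?_⟩
    intro z hz
    rcases Finset.mem_insert.1 hz with rfl | hz
    · exact ⟨hp.1.1, hp.1.2, hp.2⟩
    · rw [Finset.mem_singleton.1 hz]; exact ⟨hq.1.1, hq.1.2, hq.2⟩)
  rw [Real.volume_real_Ioo_of_le hab] at this
  simpa using this

lemma cut_le {T : Set P} (hT : IsPreconnected T) {f : P → ℝ} (hf : Continuous f) {h : ℝ}
    (hs : (T ∩ {p | f p = h}).Subsingleton) : IsPreconnected (T ∩ {p | f p ≤ h}) := by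
  rcases (T ∩ {p | f p = h}).eq_empty_or_nonempty with h0 | ⟨z, hz⟩
  · have h1 : T ⊆ {p | f p < h} ∪ {p | h < f p} := by
      intro p hp
      rcases lt_trichotomy (f p) h with h2 | h2 | h2
      · exact Or.inl h2
      · exact absurd (show p ∈ T ∩ {p | f p = h} from ⟨hp, h2⟩) (by rw [h0]; exact id)
      · exact Or.inr h2
    rcases hT.subset_or_subset (isOpen_lt hf continuous_const) (isOpen_lt continuous_const hf)
      (by rw [Set.disjoint_left]; intro p h1 h2; exact lt_asymm (show f p < h from h1) (show h < f p from h2)) h1 with h2 | h2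
    · have : T ∩ {p | f p ≤ h} = T :=
        inter_eq_left.2 (fun p hp => (show f p ≤ h from le_of_lt (h2 hp)))
      rw [this]; exact hT
    · have : T ∩ {p | f p ≤ h} = ∅ := by
        ext p; simp only [mem_inter_iff, mem_ofPred_eq, mem_empty_iff_false, iff_false, not_and,
          not_le]
        exact fun hp => h2 hp
      rw [this]; exact isPreconnected_empty
  · have hc : Continuous fun p : T => if f p ≤ h then (p : P) else z := by
      refine Continuous.if_le continuous_subtype_val continuous_const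
        (hf.comp continuous_subtype_val) continuous_const ?_
      intro p hp
      exact hs ⟨p.2, hp⟩ hz
    have := Subtype.preconnectedSpace hT
    have h1 := isPreconnected_range hc
    convert h1 using 1
    ext p
    constructor
    · intro hp
      exact ⟨⟨p, hp.1⟩, if_pos hp.2⟩
    · rintro ⟨q, rfl⟩
      simp only
      split_ifs with h2
      · exact ⟨q.2, h2⟩
      · exact ⟨hz.1, le_of_eq hz.2⟩

lemma cut_ge {T : Set P} (hT : IsPreconnected T) {f : P → ℝ} (hf : Continuous f) {h : ℝ}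
    (hs : (T ∩ {p | f p = h}).Subsingleton) : IsPreconnected (T ∩ {p | h ≤ f p}) := by
  have := cut_le hT (f := fun p => -f p) hf.neg (h := -h) (by simpa using hs)
  simpa using this

lemma ivt {T : Set P} (hT : IsPreconnected T) (c : Fin 2) {p q : P} (hp : p ∈ T) (hq : q ∈ T)
    {t : ℝ} (h1 : p c ≤ t) (h2 : t ≤ q c) : ∃ z ∈ T, z c = t :=
  hT.intermediate_value hp hq (f := fun z : P => z c) (by fun_prop) ⟨h1, h2⟩

end Pool.Agent.H.MP_7de4e5_co
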