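import Mathlib
import Pool.Agent.H.MP_7de4e5_co.B

set_option autoImplicit false

namespace Pool.Agent.H.MP_7de4e5_co

open Set MeasureTheory
open scoped ENNReal Classical

lemma mle (c : Fin 2) (a : ℝ) : MeasurableSet {p : P | p c ≤ a} :=
  (isClosed_le (by fun_prop) continuous_const).measurableSet
lemma mge (c : Fin 2) (a : ℝ) : MeasurableSet {p : P | a ≤ p c} :=
  (isClosed_le continuous_const (by fun_prop)).measurableSet
lemma mlt (c : Fin 2) (a : ℝ) : MeasurableSet {p : P | p c < a} :=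
  (isOpen_lt (by fun_prop) continuous_const).measurableSet
lemma mgt (c : Fin 2) (a : ℝ) : MeasurableSet {p : P | a < p c} :=
  (isOpen_lt continuous_const (by fun_prop)).measurableSet
lemma meq (c : Fin 2) (a : ℝ) : MeasurableSet {p : P | p c = a} :=
  (isClosed_eq (by fun_prop) continuous_const).measurableSet

def cl (c : Fin 2) (a b : ℝ) : Set P := {p | a ≤ p c ∧ p c ≤ b}
def op (c : Fin 2) (a b : ℝ) : Set P := {p | a < p c ∧ p c < b}

lemma mcl (c : Fin 2) (a b : ℝ) : MeasurableSet (cl c a b) := (mge c a).inter (mle c b)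
lemma mop (c : Fin 2) (a b : ℝ) : MeasurableSet (op c a b) := (mgt c a).inter (mlt c b)

lemma near {G : Set ℝ} (hne : G.Nonempty) {lo hi δ : ℝ} (hδ : 0 < δ) (hG : G ⊆ Ioo lo hi) :
    ∃ i s y1 y2 : ℝ, y1 ∈ G ∧ y2 ∈ G ∧ lo ≤ i ∧ i ≤ y1 ∧ y1 ≤ y2 ∧ y2 ≤ s ∧ s ≤ hi ∧
      y1 < i + δ ∧ s - δ < y2 ∧ (∀ t ∈ G, i ≤ t ∧ t ≤ s) := by
  have hb : BddBelow G := ⟨lo, fun t ht => (hG ht).1.le⟩
  have ha : BddAbove G := ⟨hi, fun t ht => (hG ht).2.le⟩
  obtain ⟨z1, h1, h2⟩ := exists_lt_of_csInf_lt hne (show sInf G < sInf G + δ by linarith)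
  obtain ⟨z2, h3, h4⟩ := exists_lt_of_lt_csSup hne (show sSup G - δ < sSup G by linarith)
  have h5 : min z1 z2 ∈ G := by rcases min_cases z1 z2 with h | h <;> rw [h.1] <;> assumption
  have h6 : max z1 z2 ∈ G := by rcases max_cases z1 z2 with h | h <;> rw [h.1] <;> assumption
  refine ⟨sInf G, sSup G, min z1 z2, max z1 z2, h5, h6,
    le_csInf hne fun t ht => (hG ht).1.le, csInf_le hb h5, min_le_max, le_csSup ha h6,
    csSup_le hne fun t ht => (hG ht).2.le, lt_of_le_of_lt (min_le_left _ _) h2,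
    lt_of_lt_of_le h4 (le_max_right _ _), fun t ht => ⟨csInf_le hb ht, le_csSup ha ht⟩⟩

theorem block (E : Finset (P × P)) (hT : IsPreconnected (TT E)) {h a' a u v b b' : ℝ}
    (hh : 1.732 ≤ h) (h1 : a' ≤ a) (h2 : a ≤ u) (h3 : u ≤ v) (h4 : v ≤ b) (h5 : b ≤ b')
    (sa : (TT E ∩ {p | p 1 = a'}).Subsingleton) (sb : (TT E ∩ {p | p 1 = b'}).Subsingleton)
    {Z : Set ℝ} (hZ : Z.Finite)
    (hd : ∀ t ∈ Ioo a b, t ∉ Z → (TT E ∩ {p | p 1 = t}).Nontrivial)
    {p0 p1 q0 q1 : P} (m1 : p0 ∈ TT E) (m2 : p1 ∈ TT E) (m3 : q0 ∈ TT E) (m4 : q1 ∈ TT E)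
    (e1 : p0 1 = u) (e2 : p0 0 = 0) (e3 : p1 1 = u) (e4 : p1 0 = h)
    (e5 : q0 1 = v) (e6 : q0 0 = 0) (e7 : q1 1 = v) (e8 : q1 0 = h) :
    (u - a) + (b - v) + 7 / 4 * (v - u) + 1.498 ≤ lam E (cl 1 a' b') := by
  have hC : IsPreconnected (TT E ∩ cl 1 a' b') := by
    have g1 := cut_le hT (f := fun p : P => p 1) (by fun_prop) sb
    have g2 := cut_ge g1 (f := fun p : P => p 1) (by fun_prop) (h := a')
      (sa.anti fun p hp => ⟨hp.1.1, hp.2⟩)
    convert g2 using 1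
    ext p
    simp only [cl, mem_inter_iff, mem_ofPred_eq]
    tauto
  have c1 : p0 ∈ TT E ∩ cl 1 a' b' := ⟨m1, by rw [cl, mem_ofPred_eq, e1]; constructor <;> linarith⟩
  have c2 : p1 ∈ TT E ∩ cl 1 a' b' := ⟨m2, by rw [cl, mem_ofPred_eq, e3]; constructor <;> linarith⟩
  have c3 : q0 ∈ TT E ∩ cl 1 a' b' := ⟨m3, by rw [cl, mem_ofPred_eq, e5]; constructor <;> linarith⟩
  have c4 : q1 ∈ TT E ∩ cl 1 a' b' := ⟨m4, by rw [cl, mem_ofPred_eq, e7]; constructor <;> linarith⟩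
  have band : ∃ y1 y2 : ℝ, y2 - y1 ≤ pr E 0 (cl 1 a' b' ∩ op 0 y1 y2) ∧
      2 * (h - (y2 - y1) - 0.002) ≤ pr E 0 (cl 1 a' b' \ op 0 y1 y2) ∧
      2 * (v - u) ≤ pr E 1 (cl 1 u v \ op 0 y1 y2) := by
    rcases {y ∈ Ioo 0 h | (TT E ∩ cl 1 a' b' ∩ {p | p 0 = y}).Subsingleton}.eq_empty_or_nonempty
      with hH | hH
    · refine ⟨0, 0, by simpa using pr_nonneg _ _ _, ?_, ?_⟩
      · have := count2 E 0 ((mcl 1 a' b').diff (mop 0 0 0)) (a := 0) (b := h) (by linarith)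
          finite_empty (by
            intro t ht _
            have g1 : ¬ (TT E ∩ cl 1 a' b' ∩ {p | p 0 = t}).Subsingleton := fun g =>
              (eq_empty_iff_forall_notMem.1 hH) t ⟨ht, g⟩
            refine (not_subsingleton_iff.1 g1).mono fun p hp => ⟨⟨hp.1.1, hp.1.2, ?_⟩, hp.2⟩
            intro g; exact lt_asymm g.1 g.2)
        linarith
      · refine count2 E 1 ((mcl 1 u v).diff (mop 0 0 0)) h3 hZ ?_
        intro t ht hz
        refine (hd t ⟨by linarith [ht.1], by linarith [ht.2]⟩ hz).mono fun p hp =>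
          ⟨⟨hp.1, ?_, ?_⟩, hp.2⟩
        · have : p 1 = t := hp.2
          rw [cl, mem_ofPred_eq, this]; exact ⟨ht.1.le, ht.2.le⟩
        · intro g; exact lt_asymm g.1 g.2
    · obtain ⟨i, s, y1, y2, g1, g2, g3, g4, g5, g6, g7, g8, g9, g10⟩ :=
        near hH (δ := 0.001) (by norm_num) (lo := 0) (hi := h) (fun y hy => hy.1)
      refine ⟨y1, y2, ?_, ?_, ?_⟩
      · refine count1 E 0 ((mcl 1 a' b').inter (mop 0 y1 y2)) g5 ?_
        intro t ht
        obtain ⟨z, hz, hz2⟩ := ivt hC 0 c1 c2 (t := t) (by linarith [ht.1]) (by linarith [ht.2])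
        exact ⟨z, hz.1, ⟨hz.2, by rw [op, mem_ofPred_eq, hz2]; exact ht⟩, hz2⟩
      · rw [pr_split E 0 _ (mle 0 y1)]
        have k1 := count2 E 0 (((mcl 1 a' b').diff (mop 0 y1 y2)).inter (mle 0 y1)) (a := 0)
          (b := i) g3 finite_empty (by
            intro t ht _
            have k : ¬ (TT E ∩ cl 1 a' b' ∩ {p | p 0 = t}).Subsingleton := fun g => by
              have := (g10 t ⟨⟨ht.1, by linarith [ht.2]⟩, g⟩).1
              linarith [ht.2]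
            refine (not_subsingleton_iff.1 k).mono fun p hp =>
              ⟨⟨hp.1.1, ⟨hp.1.2, ?_⟩, ?_⟩, hp.2⟩
            · intro g
              have k1 : p 0 = t := hp.2
              have k2 : y1 < p 0 := g.1
              linarith [ht.2]
            · have k1 : p 0 = t := hp.2
              show p 0 ≤ y1
              linarith [ht.2])
        have k2 := count2 E 0 (((mcl 1 a' b').diff (mop 0 y1 y2)).diff (mle 0 y1)) (a := s)
          (b := h) g7 finite_empty (by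
            intro t ht _
            have k : ¬ (TT E ∩ cl 1 a' b' ∩ {p | p 0 = t}).Subsingleton := fun g => by
              have := (g10 t ⟨⟨by linarith [ht.1], ht.2⟩, g⟩).2
              linarith [ht.1]
            refine (not_subsingleton_iff.1 k).mono fun p hp =>
              ⟨⟨hp.1.1, ⟨hp.1.2, ?_⟩, ?_⟩, hp.2⟩
            · intro g
              have k1 : p 0 = t := hp.2
              have k2 : p 0 < y2 := g.2
              linarith [ht.1]
            · have k1 : p 0 = t := hp.2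
              intro g
              have k2 : p 0 ≤ y1 := g
              linarith [ht.1])
        linarith
      · have C1 := cut_le hC (f := fun p : P => p 0) (by fun_prop) g1.2
        have C2 := cut_ge hC (f := fun p : P => p 0) (by fun_prop) g2.2
        refine count2 E 1 ((mcl 1 u v).diff (mop 0 y1 y2)) h3
          (g1.2.finite.image (fun p : P => p 1)) ?_
        intro t ht hz
        obtain ⟨z1, k1, k2⟩ := ivt C1 1 (p := p0) (q := q0) ⟨c1, show p0 0 ≤ y1 by linarith⟩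
          ⟨c3, show q0 0 ≤ y1 by linarith⟩ (t := t) (by linarith [ht.1]) (by linarith [ht.2])
        obtain ⟨z2, k3, k4⟩ := ivt C2 1 (p := p1) (q := q1) ⟨c2, show y2 ≤ p1 0 by linarith⟩
          ⟨c4, show y2 ≤ q1 0 by linarith⟩ (t := t) (by linarith [ht.1]) (by linarith [ht.2])
        have k5 : z1 0 ≤ y1 := k1.2
        have k6 : y2 ≤ z2 0 := k3.2
        refine ⟨z1, ⟨⟨k1.1.1, ?_, ?_⟩, k2⟩, z2, ⟨⟨k3.1.1, ?_, ?_⟩, k4⟩, ?_⟩
        · rw [cl, mem_ofPred_eq, k2]; exact ⟨ht.1.le, ht.2.le⟩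
        · intro g; exact absurd g.1 (not_lt.2 k5)
        · rw [cl, mem_ofPred_eq, k4]; exact ⟨ht.1.le, ht.2.le⟩
        · intro g; exact absurd g.2 (not_lt.2 k6)
        · rintro rfl
          exact hz ⟨z1, ⟨k1.1, show z1 0 = y1 by linarith⟩, k2⟩
  obtain ⟨y1, y2, b1, b2, b3⟩ := band
  have hI : cl 1 a' b' ∩ cl 1 u v = cl 1 u v := by
    refine inter_eq_right.2 fun p hp => ?_
    have k1 : u ≤ p 1 := hp.1
    have k2 : p 1 ≤ v := hp.2
    exact ⟨by linarith, by linarith⟩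
  have s1 := lam_split E (cl 1 a' b') (mcl 1 u v)
  rw [hI] at s1
  have s2 := lam_split E (cl 1 u v) (mop 0 y1 y2)
  have t1 := comb E (α := 1 / 2) (β := 0.866) (by norm_num) (by norm_num) (by norm_num)
    (cl 1 a' b' \ cl 1 u v)
  have t2 := comb E (α := 0) (β := 0.866) (by norm_num) (by norm_num) (by norm_num)
    (cl 1 u v ∩ op 0 y1 y2)
  have t3 := comb E (α := 7 / 8) (β := 0.433) (by norm_num) (by norm_num) (by norm_num)
    (cl 1 u v \ op 0 y1 y2)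
  have s3 := pr_split E 0 (cl 1 a' b' \ cl 1 u v) (mop 0 y1 y2)
  have s4 := pr_split E 0 (cl 1 a' b' ∩ op 0 y1 y2) (mcl 1 u v)
  have s5 := pr_split E 0 (cl 1 a' b' \ op 0 y1 y2) (mcl 1 u v)
  have u1 : pr E 0 ((cl 1 a' b' ∩ op 0 y1 y2) ∩ cl 1 u v) ≤ pr E 0 (cl 1 u v ∩ op 0 y1 y2) :=
    pr_mono E 0 fun p hp => ⟨hp.2, hp.1.2⟩
  have u2 : pr E 0 ((cl 1 a' b' ∩ op 0 y1 y2) \ cl 1 u v) ≤
      pr E 0 ((cl 1 a' b' \ cl 1 u v) ∩ op 0 y1 y2) :=
    pr_mono E 0 fun p hp => ⟨⟨hp.1.1, hp.2⟩, hp.1.2⟩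
  have u3 : pr E 0 ((cl 1 a' b' \ op 0 y1 y2) ∩ cl 1 u v) ≤ pr E 0 (cl 1 u v \ op 0 y1 y2) :=
    pr_mono E 0 fun p hp => ⟨hp.2, hp.1.2⟩
  have u4 : pr E 0 ((cl 1 a' b' \ op 0 y1 y2) \ cl 1 u v) ≤
      pr E 0 ((cl 1 a' b' \ cl 1 u v) \ op 0 y1 y2) :=
    pr_mono E 0 fun p hp => ⟨⟨hp.1.1, hp.2⟩, hp.1.2⟩
  have u5 := pr_nonneg E 0 ((cl 1 a' b' \ cl 1 u v) \ op 0 y1 y2)
  have s6 := pr_split E 1 (cl 1 a' b' \ cl 1 u v) (mle 1 u)
  have k1 := count2 E 1 (((mcl 1 a' b').diff (mcl 1 u v)).inter (mle 1 u)) h2 hZ (by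
    intro t ht hz
    refine (hd t ⟨ht.1, by linarith [ht.2]⟩ hz).mono fun p hp => ⟨⟨hp.1, ⟨?_, ?_⟩, ?_⟩, hp.2⟩
    · have k : p 1 = t := hp.2
      rw [cl, mem_ofPred_eq, k]; exact ⟨by linarith [ht.1], by linarith [ht.2]⟩
    · have k : p 1 = t := hp.2
      intro g
      have k2 : u ≤ p 1 := g.1
      linarith [ht.2]
    · have k : p 1 = t := hp.2
      show p 1 ≤ u
      linarith [ht.2])
  have k2 := count2 E 1 (((mcl 1 a' b').diff (mcl 1 u v)).diff (mle 1 u)) h4 hZ (by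
    intro t ht hz
    refine (hd t ⟨by linarith [ht.1], ht.2⟩ hz).mono fun p hp => ⟨⟨hp.1, ⟨?_, ?_⟩, ?_⟩, hp.2⟩
    · have k : p 1 = t := hp.2
      rw [cl, mem_ofPred_eq, k]; exact ⟨by linarith [ht.1], by linarith [ht.2]⟩
    · have k : p 1 = t := hp.2
      intro g
      have k2 : p 1 ≤ v := g.2
      linarith [ht.1]
    · have k : p 1 = t := hp.2
      intro g
      have k2 : p 1 ≤ u := g
      linarith [ht.1])
  linarith

lemma bound (E : Finset (P × P)) : ∃ M : ℝ, 0 < M ∧ ∀ p ∈ TT E, -M < p 1 ∧ p 1 < M := by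
  have hc : IsCompact (TT E) := by
    unfold TT
    refine E.isCompact_biUnion fun e _ => ?_
    rw [seg_eq]; exact isCompact_Icc.image (gam_cont e)
  obtain ⟨C, hC⟩ := hc.exists_bound_of_continuousOn (f := fun p : P => p 1) (by fun_prop)
  refine ⟨|C| + 1, by positivity, fun p hp => ?_⟩
  have h1 := abs_le.1 (show |p 1| ≤ |C| from (hC p hp).trans (le_abs_self C))
  constructor <;> linarith [h1.1, h1.2]

theorem sweep (E : Finset (P × P)) (hT : IsPreconnected (TT E)) {h : ℝ} (hh : 1.732 ≤ h)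
    (m : ℕ) (c0 c1 : ℕ → P)
    (hc : ∀ k ≤ m, c0 k ∈ TT E ∧ c1 k ∈ TT E ∧ c0 k 1 = 2 * k ∧ c1 k 1 = 2 * k ∧ c0 k 0 = 0 ∧
      c1 k 0 = h) :
    ∀ k ≤ m, ∀ b b' : ℝ, 2 * k ≤ b → b ≤ b' → (TT E ∩ {p | p 1 = b'}).Subsingleton →
      (∀ t ∈ Ioo (2 * k : ℝ) b, ¬ (TT E ∩ {p | p 1 = t}).Subsingleton) →
      b + 1.498 * (k + 1) - 0.002 * k ≤ lam E {p | p 1 ≤ b'} := by
  intro k
  induction k using Nat.strong_induction_on with
  | _ k ih =>
  intro hk b b' h1 h2 h3 h4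
  have hex : ∃ j : ℕ, ∀ i : ℕ, j ≤ i → i < k → ∀ t ∈ Ioo (2 * i : ℝ) (2 * i + 2),
      ¬ (TT E ∩ {p | p 1 = t}).Subsingleton := ⟨k, fun i g1 g2 => absurd g2 (not_lt.2 g1)⟩
  have hk0 : Nat.find hex ≤ k := Nat.find_min' hex fun i g1 g2 => absurd g2 (not_lt.2 g1)
  have hsp := Nat.find_spec hex
  have hZ : ((fun i : ℕ => (2 * i : ℝ)) '' Iic k).Finite := (finite_Iic k).image _
  have hdbl : ∀ t ∈ Ioo (2 * (Nat.find hex : ℕ) : ℝ) b,
      t ∉ ((fun i : ℕ => (2 * i : ℝ)) '' Iic k) → (TT E ∩ {p | p 1 = t}).Nontrivial := by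
    intro t ht hz
    rw [← not_subsingleton_iff]
    by_cases g : (2 * k : ℝ) < t
    · exact h4 t ⟨g, ht.2⟩
    · have g0 : (0 : ℝ) ≤ t / 2 := by
        have : (0 : ℝ) ≤ (Nat.find hex : ℕ) := Nat.cast_nonneg _
        linarith [ht.1]
      have g1 := Nat.floor_le g0
      have g2 := Nat.lt_floor_add_one (t / 2)
      have g3 : ⌊t / 2⌋₊ ≤ k := Nat.floor_le_of_le (by linarith)
      have g4 : Nat.find hex ≤ ⌊t / 2⌋₊ := Nat.le_floor (by linarith [ht.1])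
      have g5 : (2 * (⌊t / 2⌋₊ : ℝ)) ≠ t := fun e => hz ⟨_, g3, e⟩
      have g6 : (2 * (⌊t / 2⌋₊ : ℝ)) < t := lt_of_le_of_ne (by linarith) g5
      have g7 : ⌊t / 2⌋₊ < k := by
        have : (⌊t / 2⌋₊ : ℝ) < k := by linarith
        exact_mod_cast this
      exact hsp _ g4 g7 t ⟨g6, by linarith⟩
  obtain ⟨q1, q2, q3, q4, q5, q6⟩ := hc k hk
  obtain ⟨r1, r2, r3, r4, r5, r6⟩ := hc _ (hk0.trans hk)
  have hkk : ((Nat.find hex : ℕ) : ℝ) ≤ k := by exact_mod_cast hk0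
  rcases Nat.eq_zero_or_eq_succ_pred (Nat.find hex) with h0 | h0
  · obtain ⟨M, hM, hM2⟩ := bound E
    rw [h0] at hdbl r1 r2 r3 r4 r5 r6
    have := block E hT hh (a' := -M) (a := 2 * (0 : ℕ)) (u := 2 * (0 : ℕ)) (v := 2 * k) (b := b)
      (b' := b') (by simp; linarith) le_rfl (by simp) h1 h2
      (fun p hp => absurd (show p 1 = -M from hp.2) (ne_of_gt (hM2 p hp.1).1)) h3 hZ hdbl
      r1 r2 q1 q2 r3 r5 r4 r6 q3 q5 q4 q6
    have g1 : lam E (cl 1 (-M) b') ≤ lam E {p | p 1 ≤ b'} := lam_mono E fun p hp => hp.2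
    have g2 : (0 : ℝ) ≤ k := Nat.cast_nonneg _
    simp only [Nat.cast_zero] at this
    linarith
  · set j := (Nat.find hex).pred with hj
    have hjlt : j < Nat.find hex := by omega
    have hmin := Nat.find_min hex hjlt
    have hjk : j < k := by omega
    have hne : {t ∈ Ioo (2 * j : ℝ) (2 * j + 2) |
        (TT E ∩ {p | p 1 = t}).Subsingleton}.Nonempty := by
      by_contra hcon
      apply hmin
      intro i g1 g2 t ht hs
      rcases eq_or_lt_of_le g1 with g3 | g3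
      · exact hcon ⟨t, by rw [g3]; exact ht, hs⟩
      · exact hsp i (by omega) g2 t ht hs
    obtain ⟨b0, a, b0', a', g1, g2, g3, g4, g5, g6, g7, g8, g9, g10⟩ :=
      near hne (δ := 0.001) (by norm_num) (lo := 2 * j) (hi := 2 * j + 2) (fun y hy => hy.1)
    have hcast : ((Nat.find hex : ℕ) : ℝ) = j + 1 := by rw [h0]; push_cast; rfl
    have i1 := ih j hjk (by omega) b0 b0' g3 g4 g1.2 (by
      intro t ht hs
      have := (g10 t ⟨⟨ht.1, by linarith [ht.2]⟩, hs⟩).1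
      linarith [ht.2])
    have hZ' : (insert (2 * j + 2 : ℝ) ((fun i : ℕ => (2 * i : ℝ)) '' Iic k)).Finite := hZ.insert _
    have i2 := block E hT hh (a' := a') (a := a) (u := 2 * (Nat.find hex : ℕ)) (v := 2 * k)
      (b := b) (b' := b') g6 (by linarith) (by linarith) h1 h2 g2.2 h3 hZ' (by
        intro t ht hz
        rw [mem_insert_iff, not_or] at hz
        rcases lt_or_gt_of_ne hz.1 with k1 | k1
        · rw [← not_subsingleton_iff]
          intro hs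
          have := (g10 t ⟨⟨by linarith [ht.1], k1⟩, hs⟩).2
          linarith [ht.1]
        · exact hdbl t ⟨by linarith, ht.2⟩ hz.2)
      r1 r2 q1 q2 r3 r5 r4 r6 q3 q5 q4 q6
    obtain ⟨w1, -, w3, -⟩ := hc j (by omega)
    have s1 := lam_split E {p | p 1 ≤ b'} (mle 1 b0')
    have s2 := lam_split E ({p | p 1 ≤ b'} \ {p | p 1 ≤ b0'}) (mlt 1 a')
    have s3 := lam_split E (cl 1 a' b') (meq 1 a')
    have s4 := lam_sub E ((mcl 1 a' b').inter (meq 1 a')) (g2.2.anti fun p hp => ⟨hp.1, hp.2.2⟩)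
    have u1 : lam E {p | p 1 ≤ b0'} ≤ lam E ({p | p 1 ≤ b'} ∩ {p | p 1 ≤ b0'}) := by
      refine lam_mono E fun p hp => ⟨?_, hp⟩
      have k : p 1 ≤ b0' := hp
      show p 1 ≤ b'
      linarith
    have u2 : lam E (cl 1 a' b' \ {p | p 1 = a'}) ≤
        lam E (({p | p 1 ≤ b'} \ {p | p 1 ≤ b0'}) \ {p | p 1 < a'}) := by
      refine lam_mono E fun p hp => ⟨⟨hp.1.2, ?_⟩, ?_⟩
      · intro k
        have k1 : p 1 ≤ b0' := k
        have k2 : a' ≤ p 1 := hp.1.1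
        exact hp.2 (show p 1 = a' by linarith)
      · intro k
        have k1 : p 1 < a' := k
        have k2 : a' ≤ p 1 := hp.1.1
        linarith
    have u3 := comb E (α := 1) (β := 0) (by norm_num) (by norm_num) (by norm_num)
      (({p | p 1 ≤ b'} \ {p | p 1 ≤ b0'}) ∩ {p | p 1 < a'})
    have u4 := count1 E 1 (((mle 1 b').diff (mle 1 b0')).inter (mlt 1 a')) g5 (by
      intro t ht
      obtain ⟨z, k1, k2⟩ := ivt hT 1 w1 r1 (t := t) (by linarith [ht.1]) (by linarith [ht.2])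
      refine ⟨z, k1, ⟨⟨?_, ?_⟩, ?_⟩, k2⟩
      · show z 1 ≤ b'
        linarith [ht.2]
      · intro k
        have k3 : z 1 ≤ b0' := k
        linarith [ht.1]
      · show z 1 < a'
        linarith [ht.2])
    rw [hcast] at i2 hkk
    linarith

theorem ladder (E : Finset (P × P)) (hT : IsPreconnected (TT E)) {h : ℝ} (hh : 1.732 ≤ h)
    (m : ℕ) (c0 c1 : ℕ → P)
    (hc : ∀ k ≤ m, c0 k ∈ TT E ∧ c1 k ∈ TT E ∧ c0 k 1 = 2 * k ∧ c1 k 1 = 2 * k ∧ c0 k 0 = 0 ∧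
      c1 k 0 = h) : 3.496 * m + 1.498 ≤ len E := by
  obtain ⟨M, hM, hM2⟩ := bound E
  obtain ⟨q1, -, q3, -⟩ := hc m le_rfl
  have := sweep E hT hh m c0 c1 hc m le_rfl (2 * m) M le_rfl (by linarith [(hM2 _ q1).2])
    (fun p hp => absurd (show p 1 = M from hp.2) (ne_of_lt (hM2 p hp.1).2))
    (fun t ht => absurd ht.1 (not_lt.2 ht.2.le))
  have h2 := lam_le_len E {p | p 1 ≤ M}
  linarith

end Pool.Agent.H.MP_7de4e5_co
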